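import Pool.Agent.U753.MX.Stm
import Pool.Agent.U753.MG.Gen
import Pool.Agent.U753.FE.Ext

/-!
# Project MX: duality
-/

set_option autoImplicit false

open scoped BigOperators Matrix ComplexOrder
open scoped Matrix.Norms.L2Operator

noncomputable section

namespace Pool.Agent.U753.MX

open Pool.Agent.TH235.PP (BoxOp TorOp Site term ham sh normSq ip IsPEPS)
open Pool.Agent.U753.MK (vnE)

variable {d r L : ℕ} [NeZero L]

/-- the difference of the expectations -/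
def df (ρ : TorOp d L) (Ψ : (Site L → Fin d) → ℂ) (X : TorOp d L) : ℝ :=
  (ρ * X).trace.re - (ip Ψ (X *ᵥ Ψ)).re

lemma df_add (ρ : TorOp d L) (Ψ : (Site L → Fin d) → ℂ) (X Y : TorOp d L) :
    df ρ Ψ (X + Y) = df ρ Ψ X + df ρ Ψ Y := by
  unfold df
  rw [mul_add, Matrix.trace_add, Complex.add_re, Matrix.add_mulVec,
    Pool.Agent.N134.TP.Col.ip_add_right, Complex.add_re]
  ring

lemma df_smul (ρ : TorOp d L) (Ψ : (Site L → Fin d) → ℂ) (c : ℝ) (X : TorOp d L) :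
    df ρ Ψ ((c : ℂ) • X) = c * df ρ Ψ X := by
  unfold df
  rw [Matrix.mul_smul, Matrix.trace_smul, Matrix.smul_mulVec, Pool.Agent.TH235.PP.ip_smul_right,
    smul_eq_mul, Complex.re_ofReal_mul, Complex.re_ofReal_mul]
  ring

lemma df_sum {ι : Type*} (s : Finset ι) (ρ : TorOp d L) (Ψ : (Site L → Fin d) → ℂ)
    (X : ι → TorOp d L) : df ρ Ψ (∑ i ∈ s, X i) = ∑ i ∈ s, df ρ Ψ (X i) := by
  classical
  induction s using Finset.induction_on with
  | empty =>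
    unfold df
    simp [Matrix.zero_mulVec, ip]
  | insert a s ha ih => rw [Finset.sum_insert ha, Finset.sum_insert ha, df_add, ih]

lemma ip_abs (Ψ : (Site L → Fin d) → ℂ) (hΨ : normSq Ψ = 1) (X : TorOp d L) :
    |(ip Ψ (X *ᵥ Ψ)).re| ≤ ‖X‖ := Pool.Agent.U753.FE.qf_abs X Ψ hΨ

/-- the set of the differences -/
def dset (r : ℕ) (ρ : TorOp d L) (Ψ : (Site L → Fin d) → ℂ) (u : Site L) : Set ℝ :=
  {x | ∃ h : BoxOp d r, h.IsHermitian ∧ ‖(term h u : TorOp d L)‖ ≤ 1 ∧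
    x = (ρ * term h u).trace.re - (ip Ψ (term h u *ᵥ Ψ)).re}

lemma term_zero (u : Site L) : (term (0 : BoxOp d r) u : TorOp d L) = 0 := by
  funext s t
  unfold term
  simp

lemma dset_ne (r : ℕ) (ρ : TorOp d L) (Ψ : (Site L → Fin d) → ℂ) (u : Site L) :
    (dset r ρ Ψ u).Nonempty :=
  ⟨_, 0, Matrix.isHermitian_zero, by rw [term_zero, norm_zero]; exact zero_le_one, rfl⟩

lemma dset_bdd (hBD : StmBD) (r : ℕ) (ρ : TorOp d L) (hρ : ρ.PosSemidef) (hρ1 : ρ.trace = 1)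
    (Ψ : (Site L → Fin d) → ℂ) (hΨ : normSq Ψ = 1) (u : Site L) : BddAbove (dset r ρ Ψ u) := by
  refine ⟨2, ?_⟩
  rintro x ⟨h, h1, h2, rfl⟩
  have h3 := hBD _ ρ (term h u) hρ hρ1 (Pool.Agent.TH235.PP.term_herm h h1 u)
  have h4 := ip_abs Ψ hΨ (term h u : TorOp d L)
  have h5 := (abs_le.1 (h3.trans h2)).2
  have h6 := (abs_le.1 (h4.trans h2)).1
  linarith

lemma le_locDist (hBD : StmBD) (ρ : TorOp d L) (hρ : ρ.PosSemidef) (hρ1 : ρ.trace = 1)
    (Ψ : (Site L → Fin d) → ℂ) (hΨ : normSq Ψ = 1) (u : Site L) (h : BoxOp d r)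
    (hh : h.IsHermitian) {J : ℝ} (hJ : 0 < J) (hn : ‖(term h u : TorOp d L)‖ ≤ J) :
    df ρ Ψ (term h u) ≤ J * locDist r ρ Ψ u := by
  have h1 : J⁻¹ * df ρ Ψ (term h u) ∈ dset r ρ Ψ u := by
    refine ⟨((J⁻¹ : ℝ) : ℂ) • h, Pool.Agent.N692.TP.herm_smul hh _, ?_, ?_⟩
    · rw [Pool.Agent.N712.TP.term_smul, norm_smul, Complex.norm_real, Real.norm_eq_abs,
        abs_of_pos (inv_pos.2 hJ), inv_mul_le_iff₀ hJ, mul_one]
      exact hn
    · rw [Pool.Agent.N712.TP.term_smul, ← df_smul]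
      rfl
  have h2 := le_csSup (dset_bdd hBD r ρ hρ hρ1 Ψ hΨ u) h1
  rw [inv_mul_le_iff₀ hJ] at h2
  exact h2

lemma near_locDist (ρ : TorOp d L) (Ψ : (Site L → Fin d) → ℂ) (u : Site L) {J δ : ℝ} (hJ : 0 < J)
    (hδ : 0 < δ) : ∃ h : BoxOp d r, h.IsHermitian ∧ ‖(term h u : TorOp d L)‖ ≤ J ∧
      J * locDist r ρ Ψ u - δ ≤ df ρ Ψ (term h u) := by
  have h1 : locDist r ρ Ψ u - δ / J < sSup (dset r ρ Ψ u) := by
    have : 0 < δ / J := by positivity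
    have e : sSup (dset r ρ Ψ u) = locDist r ρ Ψ u := rfl
    rw [e]
    linarith
  obtain ⟨x, ⟨h, h2, h3, rfl⟩, h4⟩ := exists_lt_of_lt_csSup (dset_ne r ρ Ψ u) h1
  refine ⟨((J : ℝ) : ℂ) • h, Pool.Agent.N692.TP.herm_smul h2 _, ?_, ?_⟩
  · rw [Pool.Agent.N712.TP.term_smul, norm_smul, Complex.norm_real, Real.norm_eq_abs,
      abs_of_pos hJ]
    exact mul_le_of_le_one_right hJ.le h3
  · rw [Pool.Agent.N712.TP.term_smul, df_smul]
    have h5 : J * (locDist r ρ Ψ u - δ / J) ≤ J * df ρ Ψ (term h u) :=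
      mul_le_mul_of_nonneg_left h4.le hJ.le
    have h6 : J * (locDist r ρ Ψ u - δ / J) = J * locDist r ρ Ψ u - δ := by
      field_simp
    linarith

lemma term_addL (h1 h2 : BoxOp d r) (u : Site L) :
    (term (h1 + h2) u : TorOp d L) = term h1 u + term h2 u := by
  funext s t
  show term (h1 + h2) u s t = term h1 u s t + term h2 u s t
  unfold term
  split_ifs
  · rfl
  · rw [add_zero]

/-- the minimiser -/
lemma opt (hVA : StmVA) (hd : 0 < d) (Ψ : (Site L → Fin d) → ℂ) {J : ℝ}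
    (h : Site L → BoxOp d r) (hA : Adm J h)
    (hmin : ∀ h' : Site L → BoxOp d r, Adm J h' → relG Ψ h ≤ relG Ψ h')
    (h' : Site L → BoxOp d r) (hA' : Adm J h') :
    df (gibbs (∑ u, term (h u) u)) Ψ (∑ u, term (h' u) u) ≤
      df (gibbs (∑ u, term (h u) u)) Ψ (∑ u, term (h u) u) := by
  have : Nonempty (Site L → Fin d) := ⟨fun _ => ⟨0, hd⟩⟩
  obtain ⟨K, hK⟩ : ∃ K : TorOp d L, K = ∑ u, term (h u) u := ⟨_, rfl⟩
  obtain ⟨K', hK'⟩ : ∃ K' : TorOp d L, K' = ∑ u, term (h' u) u := ⟨_, rfl⟩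
  obtain ⟨V, hV⟩ : ∃ V : TorOp d L, V = K' + ((-1 : ℝ) : ℂ) • K := ⟨_, rfl⟩
  have hKh : K.IsHermitian := by
    rw [hK]; exact Pool.Agent.U753.MG.herm_term h fun u => (hA u).1
  have hK'h : K'.IsHermitian := by
    rw [hK']; exact Pool.Agent.U753.MG.herm_term h' fun u => (hA' u).1
  have hVh : V.IsHermitian := by
    rw [hV]; exact hK'h.add (Pool.Agent.N692.TP.herm_smul hKh _)
  rw [← hK, ← hK']
  have hdf : df (gibbs K) Ψ V = df (gibbs K) Ψ K' - df (gibbs K) Ψ K := by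
    rw [hV, df_add, df_smul]
    ring
  by_contra hcon
  push Not at hcon
  obtain ⟨y, hy⟩ : ∃ y, y = df (gibbs K) Ψ V := ⟨_, rfl⟩
  have hy0 : 0 < y := by rw [hy, hdf]; linarith
  obtain ⟨t, ht0, ht1, ht2, ht3⟩ : ∃ t : ℝ, 0 < t ∧ t ≤ 1 ∧ t * ‖V‖ ≤ 1 ∧ t * ‖V‖ ^ 2 < y := by
    have hv := norm_nonneg V
    refine ⟨min 1 (min (1 / (‖V‖ + 1)) (y / (2 * (‖V‖ ^ 2 + 1)))), ?_, min_le_left _ _, ?_, ?_⟩
    · exact lt_min one_pos (lt_min (by positivity) (by positivity))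
    · have h1 : min 1 (min (1 / (‖V‖ + 1)) (y / (2 * (‖V‖ ^ 2 + 1)))) ≤ 1 / (‖V‖ + 1) :=
        (min_le_right _ _).trans (min_le_left _ _)
      refine (mul_le_mul_of_nonneg_right h1 hv).trans ?_
      rw [one_div, inv_mul_le_iff₀ (by positivity)]
      linarith
    · have h1 : min 1 (min (1 / (‖V‖ + 1)) (y / (2 * (‖V‖ ^ 2 + 1)))) ≤
          y / (2 * (‖V‖ ^ 2 + 1)) := (min_le_right _ _).trans (min_le_right _ _)
      refine (mul_le_mul_of_nonneg_right h1 (sq_nonneg _)).trans_lt ?_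
      rw [div_mul_eq_mul_div, div_lt_iff₀ (by positivity)]
      nlinarith [sq_nonneg ‖V‖]
  -- the interpolating interaction
  obtain ⟨g, hg⟩ : ∃ g : Site L → BoxOp d r,
    g = fun u => ((1 - t : ℝ) : ℂ) • h u + ((t : ℝ) : ℂ) • h' u := ⟨_, rfl⟩
  have hgt : ∀ u, (term (g u) u : TorOp d L) =
      ((1 - t : ℝ) : ℂ) • term (h u) u + ((t : ℝ) : ℂ) • term (h' u) u := by
    intro u
    rw [hg]
    simp only []
    rw [term_addL, Pool.Agent.N712.TP.term_smul, Pool.Agent.N712.TP.term_smul]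
  have hgA : Adm J g := by
    intro u
    refine ⟨?_, ?_⟩
    · rw [hg]
      exact (Pool.Agent.N692.TP.herm_smul (hA u).1 _).add
        (Pool.Agent.N692.TP.herm_smul (hA' u).1 _)
    · rw [hgt u]
      refine (norm_add_le _ _).trans ?_
      rw [norm_smul, norm_smul, Complex.norm_real, Complex.norm_real, Real.norm_eq_abs,
        Real.norm_eq_abs, abs_of_nonneg (by linarith), abs_of_pos ht0]
      have e1 := mul_le_mul_of_nonneg_left (hA u).2 (show 0 ≤ 1 - t by linarith)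
      have e2 := mul_le_mul_of_nonneg_left (hA' u).2 ht0.le
      have e3 : (1 - t) * J + t * J = J := by ring
      linarith
  have hgs : ∑ u, term (g u) u = K + (t : ℂ) • V := by
    have e1 : ∑ u, (term (g u) u : TorOp d L) = ((1 - t : ℝ) : ℂ) • K + ((t : ℝ) : ℂ) • K' := by
      rw [hK, hK', Finset.smul_sum, Finset.smul_sum, ← Finset.sum_add_distrib]
      exact Finset.sum_congr rfl fun u _ => hgt u
    rw [e1, hV, smul_add, smul_smul]
    push_cast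
    rw [sub_smul, one_smul]
    have : (t : ℂ) * (-1) = -(t : ℂ) := by ring
    rw [this, neg_smul]
    abel
  have h1 := hmin g hgA
  unfold relG at h1
  rw [hgs, ← hK] at h1
  have h2 := hVA _ K V hKh hVh t ht0.le ht2
  have h3 : (ip Ψ ((K + (t : ℂ) • V) *ᵥ Ψ)).re =
      (ip Ψ (K *ᵥ Ψ)).re + t * (ip Ψ (V *ᵥ Ψ)).re := by
    rw [Matrix.add_mulVec, Pool.Agent.N134.TP.Col.ip_add_right, Complex.add_re,
      Matrix.smul_mulVec, Pool.Agent.TH235.PP.ip_smul_right, Complex.re_ofReal_mul]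
  rw [h3] at h1
  have h4 : t * y ≤ t ^ 2 * ‖V‖ ^ 2 := by
    have e1 : t * y = t * (gibbs K * V).trace.re - t * (ip Ψ (V *ᵥ Ψ)).re := by
      rw [hy]
      unfold df
      ring
    rw [e1]
    linarith
  have h5 : t * (t * ‖V‖ ^ 2) < t * y := mul_lt_mul_of_pos_left ht3 ht0
  have h6 : t * (t * ‖V‖ ^ 2) = t ^ 2 * ‖V‖ ^ 2 := by ring
  linarith

/-- **Duality.** -/
theorem dual (hGV : StmGV) (hGE : StmGE) (hVA : StmVA) (hMI : StmMI) (hBD : StmBD)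
    (hd : 0 < d) (hr : r ≤ L) (Ψ : (Site L → Fin d) → ℂ) (hΨ : normSq Ψ = 1) (J η : ℝ)
    (hJ : 0 < J) :
    (∃ h : Site L → BoxOp d r, Adm J h ∧ relG Ψ h ≤ η) ↔
      ∀ ρ : TorOp d L, ρ.PosSemidef → ρ.trace = 1 →
        vnE ρ ≤ η + J * ∑ u, locDist r ρ Ψ u := by
  have : Nonempty (Site L → Fin d) := ⟨fun _ => ⟨0, hd⟩⟩
  constructor
  · rintro ⟨h, hA, hh⟩ ρ hρ hρ1
    have h1 := hGV _ ρ (∑ u, term (h u) u) hρ hρ1
      (Pool.Agent.U753.MG.herm_term h fun u => (hA u).1)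
    unfold relG at hh
    have h2 : df ρ Ψ (∑ u, term (h u) u) ≤ J * ∑ u, locDist r ρ Ψ u := by
      rw [df_sum, Finset.mul_sum]
      exact Finset.sum_le_sum fun u _ =>
        le_locDist hBD ρ hρ hρ1 Ψ hΨ u (h u) (hA u).1 hJ (hA u).2
    unfold df at h2
    linarith
  · intro hdual
    obtain ⟨h, hA, hmin⟩ := hMI d r L hd hr Ψ J hJ.le
    refine ⟨h, hA, ?_⟩
    obtain ⟨K, hK⟩ : ∃ K : TorOp d L, K = ∑ u, term (h u) u := ⟨_, rfl⟩
    have hKh : K.IsHermitian := by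
      rw [hK]; exact Pool.Agent.U753.MG.herm_term h fun u => (hA u).1
    obtain ⟨-, g2, g3, g4⟩ := hGE _ K hKh
    have h1 := hdual (gibbs K) g2 g3
    have h2 : J * ∑ u, locDist r (gibbs K) Ψ u ≤ df (gibbs K) Ψ K := by
      refine le_of_forall_pos_le_add fun δ hδ => ?_
      have hL : (0 : ℝ) < Fintype.card (Site L) := by
        exact_mod_cast Fintype.card_pos
      have h3 : ∀ u, ∃ g : BoxOp d r, g.IsHermitian ∧ ‖(term g u : TorOp d L)‖ ≤ J ∧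
          J * locDist r (gibbs K) Ψ u - δ / Fintype.card (Site L) ≤ df (gibbs K) Ψ (term g u) :=
        fun u => near_locDist _ Ψ u hJ (by positivity)
      choose h' k1 k2 k3 using h3
      have h4 := opt hVA hd Ψ h hA hmin h' fun u => ⟨k1 u, k2 u⟩
      rw [← hK, df_sum] at h4
      have h5 := Finset.sum_le_sum fun u (_ : u ∈ Finset.univ) => k3 u
      rw [Finset.sum_sub_distrib, ← Finset.mul_sum, Finset.sum_const, Finset.card_univ,
        nsmul_eq_mul, mul_div_cancel₀ _ hL.ne'] at h5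
      linarith
    unfold relG
    rw [← hK]
    unfold df at h2
    linarith

/-- a PEPS from the relative entropy -/
theorem pepsG (d : ℕ) (hd : 2 ≤ d) : ∃ C : ℝ, 0 < C ∧
    ∀ (L : ℕ) [NeZero L] (r : ℕ), 2 ≤ L → 1 ≤ r → r ≤ L → ∀ Ψ : (Site L → Fin d) → ℂ,
    normSq Ψ = 1 → ∀ J η ε : ℝ, 0 < J → 0 < ε → ε ≤ 1 →
    (∃ h : Site L → BoxOp d r, Adm J h ∧ relG Ψ h ≤ η) → 0 ≤ η ∧
    ∃ (D : ℕ) (φ : (Site L → Fin d) → ℂ),
      (D : ℝ) ≤ Real.exp (C * (r : ℝ) ^ 24 * (J + η + Real.log L + Real.log (1 / ε))) ∧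
      IsPEPS D φ ∧ normSq φ = 1 ∧ (1 - ε) * Real.exp (-η) ≤ ‖ip Ψ φ‖ ^ 2 := by
  obtain ⟨C, hC, hov⟩ := Pool.Agent.U753.MG.overX d hd
  refine ⟨3 * C, by positivity, ?_⟩
  intro L _ r hL hr hrL Ψ hΨ J η ε hJ hε hε1 ⟨h, hA, hh⟩
  have : Nonempty (Site L → Fin d) := ⟨fun _ => ⟨0, by omega⟩⟩
  obtain ⟨R', rfl⟩ : ∃ R', r = R' + 1 := ⟨r - 1, by omega⟩
  obtain ⟨K, hK⟩ : ∃ K : TorOp d L, K = ∑ u, term (h u) u := ⟨_, rfl⟩
  have hKh : K.IsHermitian := by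
    rw [hK]; exact Pool.Agent.U753.MG.herm_term h fun u => (hA u).1
  unfold relG at hh
  rw [← hK] at hh
  unfold part at hh
  obtain ⟨h3, h4⟩ := Pool.Agent.N692.TP.pbMain _ (-K) hKh.neg Ψ hΨ
  have h5 := Real.log_le_log (Real.exp_pos _) (h3.trans h4)
  rw [Real.log_exp, Pool.Agent.N692.TP.qf_neg] at h5
  have h6 : Pool.Agent.N658.TP.qf K Ψ = (ip Ψ (K *ᵥ Ψ)).re := rfl
  have hη : 0 ≤ η := by linarith
  refine ⟨hη, ?_⟩
  have hnT : ∀ u : Site L, ‖(term (((1 / 2 : ℝ) : ℂ) • h u) u : TorOp d L)‖ ≤ 1 + J := by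
    intro u
    rw [Pool.Agent.N712.TP.term_smul, norm_smul, Complex.norm_real, Real.norm_eq_abs,
      abs_of_pos (by norm_num)]
    have := (hA u).2
    linarith
  have hsum : ((2 : ℝ) : ℂ) • (∑ u : Site L, term (((1 / 2 : ℝ) : ℂ) • h u) u) = -(-K) := by
    rw [neg_neg, hK, Finset.smul_sum]
    refine Finset.sum_congr rfl fun u _ => ?_
    rw [Pool.Agent.N712.TP.term_smul, smul_smul]
    have : ((2 : ℝ) : ℂ) * ((1 / 2 : ℝ) : ℂ) = 1 := by
      push_cast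
      norm_num
    rw [this, one_smul]
  have hkap : Real.log (NormedSpace.exp (-K)).trace.re - (ip Ψ ((-K) *ᵥ Ψ)).re ≤ η := by
    have e1 : (ip Ψ ((-K) *ᵥ Ψ)).re = -(ip Ψ (K *ᵥ Ψ)).re := Pool.Agent.N692.TP.qf_neg _ _
    rw [e1]
    linarith
  obtain ⟨D, φ, g1, g2, g3, g4⟩ := hov R' L hL hrL (1 + J) η ε (by linarith) hη hε hε1
    (fun u => ((1 / 2 : ℝ) : ℂ) • h u) hnT _ hKh.neg hsum Ψ hΨ hkap
  refine ⟨D, φ, g1.trans (Real.exp_le_exp.2 ?_), g2, g3, g4⟩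
  have hL2 : (2 : ℝ) ≤ L := by exact_mod_cast hL
  have hl2 := Real.log_two_gt_d9
  have hlam : Real.log 2 ≤ Real.log L := Real.log_le_log (by norm_num) hL2
  have hT0 : 0 ≤ Real.log (1 / ε) := Real.log_nonneg (by rw [le_div_iff₀ hε]; linarith)
  push_cast
  obtain ⟨P, hP⟩ : ∃ P, P = C * ((R' : ℝ) + 1) ^ 24 := ⟨_, rfl⟩
  have hP0 : 0 ≤ P := by rw [hP]; positivity
  have e5 : 3 * C * ((R' : ℝ) + 1) ^ 24 * (J + η + Real.log L + Real.log (1 / ε)) =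
      P * (3 * (J + η + Real.log L + Real.log (1 / ε))) := by rw [hP]; ring
  rw [e5, ← hP]
  refine mul_le_mul_of_nonneg_left ?_ hP0
  linarith

end Pool.Agent.U753.MX
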