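import Pool.Agent.U753.MX.Stm
import Pool.Agent.TH235.PP.ThermalCrit

/-!
# Project MX: partition functions, statements
-/

set_option autoImplicit false

open scoped BigOperators Matrix

namespace Pool.Agent.U753.MX

open Pool.Agent.TH235.PP (normSq ip IsGappedGround)
open Pool.Agent.Results.MP_953b23_mp.ThermalCriterion (partition energy)

/-- PF. The partition function in terms of the eigenvalues. -/
def StmPF : Prop := ∀ (n : Type) [Fintype n] [DecidableEq n] (H : Matrix n n ℂ)
  (hH : H.IsHermitian) (E β : ℝ),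
  part ((β : ℂ) • (H - (E : ℂ) • (1 : Matrix n n ℂ))) = partition hH E β

/-- GG. The partition function of a gapped Hamiltonian with unique ground state. -/
def StmGG : Prop := ∀ (n : Type) [Fintype n] [DecidableEq n] (H : Matrix n n ℂ)
  (hH : H.IsHermitian) (Δ : ℝ) (ψ : n → ℂ), 0 < Δ → normSq ψ = 1 → IsGappedGround H Δ ψ →
  ∀ β : ℝ, 0 ≤ β →
  partition hH (energy H ψ) β ≤ 1 + (Fintype.card n : ℝ) * Real.exp (-(β * Δ))

end Pool.Agent.U753.MX
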