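import Pool.Agent.U753.MX.Dual
import Pool.Agent.U753.MX.Stm2
import Pool.Agent.U753.MG.Fam
import Pool.Agent.U67.MG.SU

/-!
# Project MX: families
-/

set_option autoImplicit false

open scoped BigOperators Matrix ComplexOrder
open scoped Matrix.Norms.L2Operator

noncomputable section

namespace Pool.Agent.U753.MX

open Pool.Agent.TH235.PP Pool.Agent.Results.MP_953b23_mp.OverlapBoosting
open Pool.Agent.Results.MP_953b23_mp.ThermalCriterion (partition energy SmallPartition)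
open Pool.Agent.U753.MK (vnE)
open Pool.Agent.U753.MG (MarkovTotal cmiO intO herm_term)

/-- For all large `L`, for some `r` of order `(log L) ^ j`: every state `ρ` of the torus has entropy
at most `B (log L) ^ i (1 + ∑ u, ‖ρ_u - Ψ_u‖₁)`, the sum over the boxes of side `r` with corner `u`,
`ρ_u` and `Ψ_u` the reduced states. -/
def Robust {d : ℕ} (Ψ : ∀ L : ℕ, (Site L → Fin d) → ℂ) (j i : ℕ) (B : ℝ) : Prop :=
  ∃ L₀ : ℕ, ∀ (L : ℕ) [NeZero L], L₀ ≤ L → ∃ r : ℕ, 1 ≤ r ∧ r ≤ L ∧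
    (r : ℝ) ≤ B * Real.log L ^ j ∧ ∀ ρ : TorOp d L, ρ.PosSemidef → ρ.trace = 1 →
      vnE ρ ≤ B * Real.log L ^ i * (1 + ∑ u, locDist r ρ (Ψ L) u)

/-- a large overlap -/
theorem robust_pure (hGV : StmGV) (hGE : StmGE) (hVA : StmVA) (hMI : StmMI) (hBD : StmBD)
    {d : ℕ} (hd : 2 ≤ d) (Ψ : ∀ L : ℕ, (Site L → Fin d) → ℂ)
    (hn : ∃ L₀ : ℕ, ∀ (L : ℕ) [NeZero L], L₀ ≤ L → normSq (Ψ L) = 1) (j i : ℕ) (hi : 1 ≤ i)
    (B : ℝ) (hM : Robust Ψ j i B) : ∃ C : ℝ, PureOverlap Ψ (24 * j + i) C := by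
  obtain ⟨L₁, hL₁⟩ := hn
  obtain ⟨L₀, hL₀⟩ := hM
  obtain ⟨C, hC, hgen⟩ := pepsG d hd
  refine ⟨C * |B| ^ 24 * (2 * |B| + 2) + |B| + 1, max 3 (max L₀ L₁), ?_⟩
  intro L _ hL
  have hL3 : 3 ≤ L := (le_max_left _ _).trans hL
  have hl := log_ge_one hL3
  have hunit := hL₁ L (((le_max_right _ _).trans (le_max_right _ _)).trans hL)
  obtain ⟨r, hr1, hrL, hrB, hρ⟩ := hL₀ L (((le_max_left _ _).trans (le_max_right _ _)).trans hL)
  obtain ⟨l, hll⟩ : ∃ l, l = Real.log L := ⟨_, rfl⟩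
  rw [← hll] at hl hrB hρ ⊢
  have hli : 1 ≤ l ^ i := one_le_pow₀ hl
  have hlj : 1 ≤ l ^ j := one_le_pow₀ hl
  have hlli : l ≤ l ^ i := le_self_pow₀ hl (by omega)
  have hr1' : (1 : ℝ) ≤ r := by exact_mod_cast hr1
  have hB : 0 < B := by
    by_contra hc
    push Not at hc
    have : B * l ^ j ≤ 0 := mul_nonpos_of_nonpos_of_nonneg hc (by linarith)
    linarith
  rw [abs_of_pos hB]
  have hη : 0 < B * l ^ i := by positivity
  have hd0 : 0 < d := by omega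
  have hex := (dual hGV hGE hVA hMI hBD hd0 hrL (Ψ L) hunit (B * l ^ i) (B * l ^ i) hη).2
    (fun ρ h1 h2 => by
      have := hρ ρ h1 h2
      linarith)
  obtain ⟨-, D, φ, g1, g2, g3, g4⟩ := hgen L r (by omega) hr1 hrL (Ψ L) hunit (B * l ^ i)
    (B * l ^ i) (1 / 2) hη (by norm_num) (by norm_num) hex
  rw [← hll] at g1
  have hlog2 : Real.log (1 / (1 / 2)) ≤ 1 := by
    rw [one_div_one_div]
    have := Real.log_two_lt_d9
    linarith
  obtain ⟨k, hk⟩ : ∃ k, k = 24 * j + i := ⟨_, rfl⟩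
  rw [← hk]
  have hlk : 1 ≤ l ^ k := one_le_pow₀ hl
  have hik : l ^ i ≤ l ^ k := pow_le_pow_right₀ hl (by omega)
  have hr24 : (r : ℝ) ^ 24 ≤ B ^ 24 * l ^ (24 * j) := by
    refine (pow_le_pow_left₀ (by linarith) hrB 24).trans (le_of_eq ?_)
    rw [mul_pow, ← pow_mul, mul_comm j 24]
  refine ⟨D, φ, ?_, g2, g3, ?_⟩
  · refine g1.trans (Real.exp_le_exp.2 ?_)
    have e1 : B * l ^ i + B * l ^ i + l + Real.log (1 / (1 / 2)) ≤ (2 * B + 2) * l ^ i := by
      have : (2 * B + 2) * l ^ i = B * l ^ i + B * l ^ i + l ^ i + l ^ i := by ring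
      rw [this]
      linarith
    have e0 : 0 ≤ (2 * B + 2) * l ^ i := by positivity
    have e2 : C * (r : ℝ) ^ 24 * (B * l ^ i + B * l ^ i + l + Real.log (1 / (1 / 2))) ≤
        C * (r : ℝ) ^ 24 * ((2 * B + 2) * l ^ i) :=
      mul_le_mul_of_nonneg_left e1 (by positivity)
    have e3 : C * (r : ℝ) ^ 24 * ((2 * B + 2) * l ^ i) ≤
        C * (B ^ 24 * l ^ (24 * j)) * ((2 * B + 2) * l ^ i) :=
      mul_le_mul_of_nonneg_right (mul_le_mul_of_nonneg_left hr24 hC.le) e0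
    have e4 : C * (B ^ 24 * l ^ (24 * j)) * ((2 * B + 2) * l ^ i) =
        C * B ^ 24 * (2 * B + 2) * l ^ k := by
      rw [hk, pow_add]
      ring
    have e5 : (C * B ^ 24 * (2 * B + 2) + B + 1) * l ^ k =
        C * B ^ 24 * (2 * B + 2) * l ^ k + (B + 1) * l ^ k := by ring
    have e6 : 0 ≤ (B + 1) * l ^ k := by positivity
    rw [e5]
    linarith
  · refine le_of_sq_le_sq ?_ (norm_nonneg _)
    refine le_trans ?_ g4
    have e1 : (1 - 1 / 2 : ℝ) = Real.exp (-Real.log 2) := by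
      rw [Real.exp_neg, Real.exp_log (by norm_num)]
      norm_num
    rw [e1, ← Real.exp_add, ← Real.exp_nat_mul]
    apply Real.exp_le_exp.2
    have e2 : Real.log 2 ≤ 1 := by
      have := Real.log_two_lt_d9
      linarith
    have e3 : 0 ≤ C * B ^ 24 * (2 * B + 2) * l ^ k := by positivity
    have e4 : B * l ^ i ≤ B * l ^ k := mul_le_mul_of_nonneg_left hik hB.le
    have e6 : (C * B ^ 24 * (2 * B + 2) + B + 1) * l ^ k =
        C * B ^ 24 * (2 * B + 2) * l ^ k + B * l ^ k + l ^ k := by ring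
    rw [e6]
    have e7 : 0 ≤ B * l ^ k := by positivity
    push_cast
    linarith

/-- the approximate Markov property -/
theorem markov_robust (hGV : StmGV) (hGE : StmGE) (hVA : StmVA) (hMI : StmMI) (hBD : StmBD)
    {d : ℕ} (hd : 2 ≤ d) (Ψ : ∀ L : ℕ, (Site L → Fin d) → ℂ)
    (hn : ∃ L₀ : ℕ, ∀ (L : ℕ) [NeZero L], L₀ ≤ L → normSq (Ψ L) = 1) (j i : ℕ) (hi : 1 ≤ i)
    (B : ℝ) (hM : MarkovTotal Ψ j i B) : ∃ B' : ℝ, Robust Ψ j (max (2 * j) i) B' := by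
  obtain ⟨L₁, hL₁⟩ := hn
  obtain ⟨L₀, hL₀⟩ := hM
  have hld : 0 < Real.log d := Real.log_pos (by exact_mod_cast hd)
  obtain ⟨Q, hQ⟩ : ∃ Q : ℝ, Q = 2 * |B| + 1 := ⟨_, rfl⟩
  have hQ1 : 1 ≤ Q := by rw [hQ]; have := abs_nonneg B; linarith
  obtain ⟨B', hB'⟩ : ∃ B' : ℝ, B' = Q + (2 * (Q ^ 2 * Real.log d + 2)) + (Q + 2) := ⟨_, rfl⟩
  have hQl : 0 < Q ^ 2 * Real.log d := by positivity
  refine ⟨B', max 3 (max L₀ L₁), ?_⟩
  intro L _ hL
  have hL3 : 3 ≤ L := (le_max_left _ _).trans hL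
  have hl := log_ge_one hL3
  have hunit := hL₁ L (((le_max_right _ _).trans (le_max_right _ _)).trans hL)
  obtain ⟨b, σ, hb, hbL, hσ, hη⟩ := hL₀ L (((le_max_left _ _).trans (le_max_right _ _)).trans hL)
  have hL3' : (3 : ℝ) ≤ L := by exact_mod_cast hL3
  have hLsq : (9 : ℝ) ≤ (L : ℝ) ^ 2 := by nlinarith
  obtain ⟨h, h1, h2, h3, h4⟩ := intO Pool.Agent.U67.MG.t_sup d L hd b hbL σ hσ (Ψ L) hunit
    (1 / (L : ℝ) ^ 2) (by positivity) (by
      rw [div_le_div_iff₀ (by positivity) (by norm_num)]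
      linarith)
  have hlogL : Real.log (1 / (1 / (L : ℝ) ^ 2)) = 2 * Real.log L := by
    rw [one_div_one_div, Real.log_pow]
    norm_num
  have h2L : 2 * (1 / (L : ℝ) ^ 2) * (L : ℝ) ^ 2 = 2 := by
    field_simp
  rw [h2L] at h4
  simp only [hlogL] at h2
  obtain ⟨l, hll⟩ : ∃ l, l = Real.log L := ⟨_, rfl⟩
  rw [← hll] at hl hb hη
  simp only [← hll] at h2
  have hli : 1 ≤ l ^ i := one_le_pow₀ hl
  have hlj : 1 ≤ l ^ j := one_le_pow₀ hl
  obtain ⟨k, hk⟩ : ∃ k, k = max (2 * j) i := ⟨_, rfl⟩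
  have hlk : 1 ≤ l ^ k := one_le_pow₀ hl
  have hk1 : 1 ≤ k := by rw [hk]; exact hi.trans (le_max_right _ _)
  have hllk : l ≤ l ^ k := le_self_pow₀ hl (by omega)
  have hik : l ^ i ≤ l ^ k := pow_le_pow_right₀ hl (by rw [hk]; exact le_max_right _ _)
  have hjk : l ^ (2 * j) ≤ l ^ k := pow_le_pow_right₀ hl (by rw [hk]; exact le_max_left _ _)
  have hb' : (b : ℝ) ≤ |B| * l ^ j :=
    hb.trans (mul_le_mul_of_nonneg_right (le_abs_self B) (by linarith))
  have hbQ : 2 * (b : ℝ) + 1 ≤ Q * l ^ j := by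
    have : Q * l ^ j = 2 * (|B| * l ^ j) + l ^ j := by rw [hQ]; ring
    rw [this]
    linarith
  have hη' : ∑ v, cmiO σ (Ψ L) b v ≤ Q * l ^ k := by
    have e1 : B * l ^ i ≤ |B| * l ^ i := mul_le_mul_of_nonneg_right (le_abs_self B) (by linarith)
    have e2 : |B| * l ^ i ≤ |B| * l ^ k := mul_le_mul_of_nonneg_left hik (abs_nonneg B)
    have e3 : |B| * l ^ k ≤ Q * l ^ k := by
      refine mul_le_mul_of_nonneg_right ?_ (by linarith)
      rw [hQ]
      have := abs_nonneg B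
      linarith
    linarith
  refine ⟨2 * b + 1, by omega, hbL, ?_, ?_⟩
  · push_cast
    rw [← hll]
    refine hbQ.trans (mul_le_mul_of_nonneg_right ?_ (by linarith))
    rw [hB']
    linarith
  · rw [← hll, ← hk]
    have hJ : 0 < B' * l ^ k := by
      have : 0 < B' := by rw [hB']; linarith
      positivity
    have hadm : Adm (B' * l ^ k) h := by
      intro u
      refine ⟨h1 u, (h2 u).trans ?_⟩
      have e1 : (2 * (b : ℝ) + 1) ^ 2 ≤ Q ^ 2 * l ^ k := by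
        refine (pow_le_pow_left₀ (by positivity) hbQ 2).trans ?_
        rw [mul_pow, ← pow_mul, mul_comm j 2]
        exact mul_le_mul_of_nonneg_left hjk (sq_nonneg Q)
      have e2 := mul_le_mul_of_nonneg_right e1 hld.le
      have e3 : B' * l ^ k = 2 * (Q ^ 2 * l ^ k * Real.log d + 2 * l ^ k) +
          (Q + (Q + 2)) * l ^ k := by rw [hB']; ring
      have e4 : 0 ≤ (Q + (Q + 2)) * l ^ k := by positivity
      rw [e3]
      linarith
    have hrel : relG (Ψ L) h ≤ B' * l ^ k := by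
      unfold relG part
      have e1 : Q * l ^ k + 2 ≤ B' * l ^ k := by
        have e3 : B' * l ^ k = Q * l ^ k + 2 * l ^ k + (Q + 2 * (Q ^ 2 * Real.log d + 2)) * l ^ k := by
          rw [hB']; ring
        have e4 : 0 ≤ (Q + 2 * (Q ^ 2 * Real.log d + 2)) * l ^ k := by positivity
        rw [e3]
        linarith
      linarith
    have hdual := (dual hGV hGE hVA hMI hBD (by omega) hbL (Ψ L) hunit (B' * l ^ k)
      (B' * l ^ k) hJ).1 ⟨h, hadm, hrel⟩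
    intro ρ k1 k2
    refine (hdual ρ k1 k2).trans (le_of_eq ?_)
    ring

lemma term_oneL {d R L : ℕ} [NeZero L] (hRL : R ≤ L) (u : Site L) :
    (term (1 : BoxOp d R) u : TorOp d L) = 1 := by
  funext s t
  unfold term
  by_cases hst : s = t
  · subst hst
    rw [if_pos (fun _ _ => rfl), Matrix.one_apply_eq, Matrix.one_apply_eq]
  · rw [Matrix.one_apply_ne hst]
    split_ifs with h1
    · rw [Matrix.one_apply_ne]
      intro h2
      apply hst
      funext v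
      by_cases hv : ∀ x : Fin R × Fin R, sh u x ≠ v
      · exact h1 v hv
      · push Not at hv
        obtain ⟨x, hx⟩ := hv
        have := congrFun h2 x
        simp only [hx] at this
        exact this
    · rfl

/-- thermal interactions -/
lemma therm_adm (hPF : StmPF) {d R L : ℕ} [NeZero L] (hd : 0 < d) (hRL : R ≤ L) (h : BoxOp d R)
    (hh : h.IsHermitian) (Ψ : (Site L → Fin d) → ℂ) (hΨ : normSq Ψ = 1)
    (hH : (ham h L).IsHermitian) (β : ℝ) (hβ : 0 ≤ β) :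
    ∃ g : Site L → BoxOp d R, Adm (2 * β * nJ h) g ∧
      relG Ψ g = Real.log (partition hH (energy (ham h L) Ψ) β) := by
  obtain ⟨E, hE⟩ : ∃ E, E = energy (ham h L) Ψ := ⟨_, rfl⟩
  rw [← hE]
  have hL0 : (0 : ℝ) < (L : ℝ) ^ 2 := by
    have : (0 : ℝ) < L := by exact_mod_cast Nat.pos_of_ne_zero (NeZero.ne L)
    positivity
  obtain ⟨e, he⟩ : ∃ e : ℝ, e = -(E / (L : ℝ) ^ 2) := ⟨_, rfl⟩
  obtain ⟨g0, hg0⟩ : ∃ g0 : BoxOp d R, g0 = ((β : ℝ) : ℂ) • (h + ((e : ℝ) : ℂ) • (1 : BoxOp d R)) :=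
    ⟨_, rfl⟩
  have hterm : ∀ u : Site L, (term g0 u : TorOp d L) =
      ((β : ℝ) : ℂ) • (term h u + ((e : ℝ) : ℂ) • (1 : TorOp d L)) := by
    intro u
    rw [hg0, Pool.Agent.N712.TP.term_smul, term_addL, Pool.Agent.N712.TP.term_smul,
      term_oneL hRL]
  have hsum : ∑ u : Site L, (term g0 u : TorOp d L) =
      ((β : ℝ) : ℂ) • (ham h L - ((E : ℝ) : ℂ) • (1 : TorOp d L)) := by
    simp only [hterm]
    rw [← Finset.smul_sum, Finset.sum_add_distrib, Finset.sum_const, Finset.card_univ]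
    congr 1
    rw [sub_eq_add_neg, ← neg_smul]
    congr 1
    rw [← Nat.cast_smul_eq_nsmul ℂ, smul_smul]
    congr 1
    rw [Fintype.card_prod, ZMod.card, he]
    push_cast
    have : (L : ℂ) ≠ 0 := by exact_mod_cast NeZero.ne L
    field_simp
  have hEn : |E| ≤ (L : ℝ) ^ 2 * nJ h := by
    rw [hE]
    exact (ip_abs Ψ hΨ (ham h L)).trans (norm_ham h)
  have hen : |e| ≤ nJ h := by
    rw [he, abs_neg, abs_div, abs_of_pos hL0, div_le_iff₀ hL0]
    linarith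
  have : Nonempty (Site L → Fin d) := ⟨fun _ => ⟨0, hd⟩⟩
  refine ⟨fun _ => g0, fun u => ⟨?_, ?_⟩, ?_⟩
  · rw [hg0]
    exact Pool.Agent.N692.TP.herm_smul
      (hh.add (Pool.Agent.N692.TP.herm_smul Matrix.isHermitian_one _)) _
  · rw [hterm u, norm_smul, Complex.norm_real, Real.norm_eq_abs, abs_of_nonneg hβ]
    have e1 : ‖(term h u : TorOp d L) + ((e : ℝ) : ℂ) • (1 : TorOp d L)‖ ≤ nJ h + nJ h := by
      refine (norm_add_le _ _).trans (add_le_add (norm_term h u) ?_)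
      rw [norm_smul, Complex.norm_real, Real.norm_eq_abs, norm_one, mul_one]
      exact hen
    have e2 := mul_le_mul_of_nonneg_left e1 hβ
    have e3 : β * (nJ h + nJ h) = 2 * β * nJ h := by ring
    linarith
  · unfold relG
    rw [hsum, hPF _ (ham h L) hH E β]
    have e1 : (ip Ψ ((((β : ℝ) : ℂ) • (ham h L - ((E : ℝ) : ℂ) • (1 : TorOp d L))) *ᵥ Ψ)).re = 0 := by
      rw [Matrix.smul_mulVec, ip_smul_right, Complex.re_ofReal_mul, Matrix.sub_mulVec,
        Matrix.smul_mulVec, Matrix.one_mulVec, sub_eq_add_neg, ← neg_smul,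
        Pool.Agent.N134.TP.Col.ip_add_right, Complex.add_re, ip_smul_right, ip_self_one Ψ hΨ]
      have : (ip Ψ (ham h L *ᵥ Ψ)).re = E := hE.symm
      rw [this]
      simp
    rw [e1, add_zero]

/-- small partition functions -/
theorem thermal_robust (hPF : StmPF) (hGV : StmGV) (hGE : StmGE) (hVA : StmVA) (hMI : StmMI)
    (hBD : StmBD) {d : ℕ} (hd : 2 ≤ d) {R : ℕ} (h : BoxOp d R) (Δ : ℝ)
    (Ψ : ∀ L : ℕ, (Site L → Fin d) → ℂ) (hF : GappedFamily h Δ Ψ) (k : ℕ) (C : ℝ)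
    (hS : SmallPartition h Ψ k C) : ∃ B' : ℝ, Robust Ψ 0 k B' := by
  obtain ⟨L₁, hL₁⟩ := hF.ground
  obtain ⟨L₀, hL₀⟩ := hS
  obtain ⟨B', hB'⟩ : ∃ B' : ℝ, B' = (R : ℝ) + 2 * |C| * nJ h + |C| + 1 := ⟨_, rfl⟩
  have hJ0 := nJ_nonneg h
  have hR := hF.range_pos
  have hCa := abs_nonneg C
  have hCJ : 0 ≤ 2 * |C| * nJ h := by positivity
  have hR0 : (0 : ℝ) ≤ R := Nat.cast_nonneg R
  refine ⟨B', max (max 3 R) (max L₀ L₁), ?_⟩
  intro L _ hL
  have hL3 : 3 ≤ L := ((le_max_left _ _).trans (le_max_left _ _)).trans hL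
  have hRL : R ≤ L := ((le_max_right _ _).trans (le_max_left _ _)).trans hL
  have hl := log_ge_one hL3
  have hunit := (hL₁ L (((le_max_right _ _).trans (le_max_right _ _)).trans hL)).1
  have hH : (ham h L).IsHermitian := ham_herm h hF.herm
  obtain ⟨β, hβ0, hβ, hZ⟩ :=
    hL₀ L (((le_max_left _ _).trans (le_max_right _ _)).trans hL) hH
  obtain ⟨g, hg, hrel⟩ := therm_adm hPF (by omega) hRL h hF.herm (Ψ L) hunit hH β hβ0
  obtain ⟨l, hll⟩ : ∃ l, l = Real.log L := ⟨_, rfl⟩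
  rw [← hll] at hl hβ hZ
  have hlk : 1 ≤ l ^ k := one_le_pow₀ hl
  have hCl : C * l ^ k ≤ |C| * l ^ k := mul_le_mul_of_nonneg_right (le_abs_self C) (by linarith)
  have hJ : 0 < B' * l ^ k := by
    have : 0 < B' := by rw [hB']; linarith
    positivity
  have hBl : B' * l ^ k = 2 * (|C| * l ^ k) * nJ h + |C| * l ^ k + (R + 1) * l ^ k := by
    rw [hB']; ring
  have hR1 : 0 ≤ ((R : ℝ) + 1) * l ^ k := by positivity
  have hCl0 : 0 ≤ |C| * l ^ k := by positivity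
  have hadm : Adm (B' * l ^ k) g := by
    intro u
    refine ⟨(hg u).1, (hg u).2.trans ?_⟩
    have e1 : 2 * β * nJ h ≤ 2 * (|C| * l ^ k) * nJ h :=
      mul_le_mul_of_nonneg_right (by linarith) hJ0
    rw [hBl]
    linarith
  have : Nonempty (Site L → Fin d) := ⟨fun _ => ⟨0, by omega⟩⟩
  have hZ0 : 0 < partition hH (energy (ham h L) (Ψ L)) β :=
    Finset.sum_pos (fun j _ => Real.exp_pos _) Finset.univ_nonempty
  have hrel' : relG (Ψ L) g ≤ B' * l ^ k := by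
    rw [hrel]
    have e1 := Real.log_le_log hZ0 hZ
    rw [Real.log_exp] at e1
    have e2 : 0 ≤ 2 * (|C| * l ^ k) * nJ h := by positivity
    rw [hBl]
    linarith
  have hdual := (dual hGV hGE hVA hMI hBD (by omega) hRL (Ψ L) hunit (B' * l ^ k)
      (B' * l ^ k) hJ).1 ⟨g, hadm, hrel'⟩
  refine ⟨R, hR, hRL, ?_, ?_⟩
  · rw [pow_zero, mul_one, hB']
    linarith
  · intro ρ k1 k2
    rw [← hll]
    refine (hdual ρ k1 k2).trans (le_of_eq ?_)
    ring

/-- gapped families: always with a constant of order `L ^ 2` -/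
theorem gapped_weak (hPF : StmPF) (hGG : StmGG) (hGV : StmGV) (hGE : StmGE) (hVA : StmVA)
    (hMI : StmMI) (hBD : StmBD) {d : ℕ} (hd : 2 ≤ d) {R : ℕ} (h : BoxOp d R) (Δ : ℝ)
    (Ψ : ∀ L : ℕ, (Site L → Fin d) → ℂ) (hF : GappedFamily h Δ Ψ) :
    ∃ (C : ℝ) (L₀ : ℕ), ∀ (L : ℕ) [NeZero L], L₀ ≤ L → ∀ ρ : TorOp d L, ρ.PosSemidef →
      ρ.trace = 1 → vnE ρ ≤ 1 + C * (L : ℝ) ^ 2 * ∑ u, locDist R ρ (Ψ L) u := by
  obtain ⟨L₁, hL₁⟩ := hF.ground
  have hΔ := hF.gap_pos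
  have hld : 0 < Real.log d := Real.log_pos (by exact_mod_cast hd)
  have hJ0 := nJ_nonneg h
  obtain ⟨C, hC⟩ : ∃ C : ℝ, C = 2 * (Real.log d / Δ) * nJ h + 1 := ⟨_, rfl⟩
  have hC0 : 0 < C := by
    rw [hC]
    have : 0 ≤ 2 * (Real.log d / Δ) * nJ h := by positivity
    linarith
  refine ⟨C, max R L₁, ?_⟩
  intro L _ hL
  have hRL : R ≤ L := (le_max_left _ _).trans hL
  obtain ⟨hunit, hgs⟩ := hL₁ L ((le_max_right _ _).trans hL)
  have hH : (ham h L).IsHermitian := ham_herm h hF.herm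
  have hL0 : (0 : ℝ) < (L : ℝ) ^ 2 := by
    have : (0 : ℝ) < L := by exact_mod_cast Nat.pos_of_ne_zero (NeZero.ne L)
    positivity
  obtain ⟨β, hβ⟩ : ∃ β : ℝ, β = (L : ℝ) ^ 2 * Real.log d / Δ := ⟨_, rfl⟩
  have hβ0 : 0 ≤ β := by rw [hβ]; positivity
  have hcard : (Fintype.card (Site L → Fin d) : ℝ) = Real.exp (β * Δ) := by
    have e1 : β * Δ = ((L * L : ℕ) : ℝ) * Real.log d := by
      rw [hβ]
      push_cast
      field_simp
    rw [e1, Real.exp_nat_mul, Real.exp_log (by positivity), Fintype.card_fun, Fintype.card_fin,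
      Fintype.card_prod, ZMod.card]
    push_cast
    rfl
  have hZ := hGG _ (ham h L) hH Δ (Ψ L) hΔ hunit hgs β hβ0
  rw [hcard, ← Real.exp_add, add_neg_cancel, Real.exp_zero] at hZ
  obtain ⟨g, hg, hrel⟩ := therm_adm hPF (by omega) hRL h hF.herm (Ψ L) hunit hH β hβ0
  have : Nonempty (Site L → Fin d) := ⟨fun _ => ⟨0, by omega⟩⟩
  have hZ0 : 0 < partition hH (energy (ham h L) (Ψ L)) β :=
    Finset.sum_pos (fun j _ => Real.exp_pos _) Finset.univ_nonempty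
  have hrel' : relG (Ψ L) g ≤ 1 := by
    rw [hrel]
    have e1 := Real.log_le_log hZ0 hZ
    have e2 : Real.log (1 + 1) ≤ 1 := by
      have := Real.log_two_lt_d9
      norm_num
      linarith
    linarith
  have hadm : Adm (C * (L : ℝ) ^ 2) g := by
    intro u
    refine ⟨(hg u).1, (hg u).2.trans ?_⟩
    have e1 : C * (L : ℝ) ^ 2 = 2 * β * nJ h + (L : ℝ) ^ 2 := by
      rw [hC, hβ]
      ring
    rw [e1]
    linarith
  exact (dual hGV hGE hVA hMI hBD (by omega) hRL (Ψ L) hunit (C * (L : ℝ) ^ 2) 1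
    (by positivity)).1 ⟨g, hadm, hrel'⟩

end Pool.Agent.U753.MX
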