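import Pool.Agent.U753.MG.Stm

/-!
# Project MX: PEPS and the maximum entropy principle. Definitions and statements
-/

set_option autoImplicit false

open scoped BigOperators Matrix ComplexOrder
open scoped Matrix.Norms.L2Operator

noncomputable section

namespace Pool.Agent.U753.MX

open Pool.Agent.TH235.PP (BoxOp TorOp Site term ham sh normSq ip)
open Pool.Agent.U753.MK (vnE)

/-- The partition function `Tr exp (-K)`. -/
def part {n : Type} [Fintype n] [DecidableEq n] (K : Matrix n n ℂ) : ℝ :=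
  (NormedSpace.exp (-K)).trace.re

/-- The Gibbs state of `K`. -/
def gibbs {n : Type} [Fintype n] [DecidableEq n] (K : Matrix n n ℂ) : Matrix n n ℂ :=
  (((part K)⁻¹ : ℝ) : ℂ) • NormedSpace.exp (-K)

/-- The interactions `h u`, acting on the box of side `r` with corner `u`, of norm at most `J`. -/
def Adm {d r L : ℕ} [NeZero L] (J : ℝ) (h : Site L → BoxOp d r) : Prop :=
  ∀ u, (h u).IsHermitian ∧ ‖term (h u) u‖ ≤ J

/-- The relative entropy of `Ψ` with respect to the Gibbs state of the Hamiltonian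
`K = ∑ u, term (h u) u`: `log Tr exp (-K) + ⟨Ψ, K Ψ⟩`. -/
def relG {d r L : ℕ} [NeZero L] (Ψ : (Site L → Fin d) → ℂ) (h : Site L → BoxOp d r) : ℝ :=
  Real.log (part (∑ u, term (h u) u)) + (ip Ψ ((∑ u, term (h u) u) *ᵥ Ψ)).re

/-- The trace norm of the difference of the reduced states of `ρ` and of `Ψ` on the box of side `r`
with corner `u`, as the supremum of the differences of the expectations of the Hermitian operators
of norm at most one on this box. -/
def locDist {d L : ℕ} [NeZero L] (r : ℕ) (ρ : TorOp d L) (Ψ : (Site L → Fin d) → ℂ) (u : Site L) :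
    ℝ :=
  sSup {x | ∃ h : BoxOp d r, h.IsHermitian ∧ ‖(term h u : TorOp d L)‖ ≤ 1 ∧
    x = (ρ * term h u).trace.re - (ip Ψ (term h u *ᵥ Ψ)).re}

/-- GV. The Gibbs variational inequality. -/
def StmGV : Prop := ∀ (n : Type) [Fintype n] [DecidableEq n] (ρ K : Matrix n n ℂ),
  ρ.PosSemidef → ρ.trace = 1 → K.IsHermitian →
  vnE ρ ≤ Real.log (part K) + (ρ * K).trace.re

/-- GE. The Gibbs state and its entropy. -/
def StmGE : Prop := ∀ (n : Type) [Fintype n] [DecidableEq n] [Nonempty n] (K : Matrix n n ℂ),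
  K.IsHermitian → 0 < part K ∧ (gibbs K).PosSemidef ∧ (gibbs K).trace = 1 ∧
  vnE (gibbs K) = Real.log (part K) + (gibbs K * K).trace.re

/-- VA. First-order variation of the logarithm of the partition function. -/
def StmVA : Prop := ∀ (n : Type) [Fintype n] [DecidableEq n] [Nonempty n] (K V : Matrix n n ℂ),
  K.IsHermitian → V.IsHermitian → ∀ t : ℝ, 0 ≤ t → t * ‖V‖ ≤ 1 →
  Real.log (part (K + (t : ℂ) • V)) ≤
    Real.log (part K) - t * (gibbs K * V).trace.re + t ^ 2 * ‖V‖ ^ 2

/-- MI. A minimiser of the relative entropy. -/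
def StmMI : Prop := ∀ (d r L : ℕ) [NeZero L], 0 < d → r ≤ L →
  ∀ (Ψ : (Site L → Fin d) → ℂ) (J : ℝ), 0 ≤ J →
  ∃ h : Site L → BoxOp d r, Adm J h ∧ ∀ h' : Site L → BoxOp d r, Adm J h' → relG Ψ h ≤ relG Ψ h'

/-- BD. Expectations in states. -/
def StmBD : Prop := ∀ (n : Type) [Fintype n] [DecidableEq n] (ρ X : Matrix n n ℂ),
  ρ.PosSemidef → ρ.trace = 1 → X.IsHermitian → |(ρ * X).trace.re| ≤ ‖X‖

end Pool.Agent.U753.MX
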